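import Pool.Agent.K4H40.ST.Zar2
import Pool.Agent.K4H40.ST.Haar

/-! A Sato-Tate group contains `-1`. -/

set_option autoImplicit false
set_option maxHeartbeats 400000
set_option linter.style.haveILetI false

namespace Pool.Agent.Run7.h271.TW

open Pool.Agent.K4H40.ST Pool.Agent.K4H40.ST.Zar MvPolynomial Matrix MeasureTheory
open Pool.Agent.K4H40.ST.Haar (integ isHaar)

section int

variable {m : Type} [Fintype m] [DecidableEq m] (C : Subgroup (GL m ℂ))

theorem cont_entry (i j : m) : Continuous fun c : C => ((c : GL m ℂ) : Matrix m m ℂ) i j :=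
  Continuous.matrix_elem (Units.continuous_val.comp continuous_subtype_val) i j

theorem cont_entry' (g : GL m ℂ) (i j : m) :
    Continuous fun c : C => ((g * (c : GL m ℂ) : GL m ℂ) : Matrix m m ℂ) i j :=
  Continuous.matrix_elem (Units.continuous_val.comp (continuous_subtype_val.const_mul g)) i j

theorem cont_ev (g : GL m ℂ) (P : MvPolynomial (m × m) ℂ) :
    Continuous fun c : C => ev (g * (c : GL m ℂ)) P := by
  unfold ev
  exact (MvPolynomial.continuous_eval P).comp (continuous_pi fun p => cont_entry' C g p.1 p.2)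

variable [CompactSpace C] [MeasurableSpace C] [BorelSpace C] (μ : Measure C)
  [IsProbabilityMeasure μ]

/-- averages of translates of a polynomial are polynomials -/
theorem exists_avg (P : MvPolynomial (m × m) ℂ) : ∀ ψ : C → ℂ, Continuous ψ →
    ∃ Q : MvPolynomial (m × m) ℂ, ∀ g : GL m ℂ,
      ev g Q = ∫ c, ψ c * ev (g * (c : GL m ℂ)) P ∂μ := by
  induction P using MvPolynomial.induction_on with
  | C a =>
    intro ψ _
    refine ⟨MvPolynomial.C (∫ c, ψ c * a ∂μ), fun g => ?_⟩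
    simp [ev]
  | add p q hp hq =>
    intro ψ hψ
    obtain ⟨Q1, h1⟩ := hp ψ hψ
    obtain ⟨Q2, h2⟩ := hq ψ hψ
    refine ⟨Q1 + Q2, fun g => ?_⟩
    have e1 : ev g (Q1 + Q2) = ev g Q1 + ev g Q2 := by simp [ev]
    have e2 : ∫ c, (ψ c * ev (g * (c : GL m ℂ)) p + ψ c * ev (g * (c : GL m ℂ)) q) ∂μ =
        ∫ c, ψ c * ev (g * (c : GL m ℂ)) p ∂μ + ∫ c, ψ c * ev (g * (c : GL m ℂ)) q ∂μ :=
      integral_add (integ μ (hψ.mul (cont_ev C g p))) (integ μ (hψ.mul (cont_ev C g q)))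
    rw [e1, h1, h2, ← e2]
    refine integral_congr_ae (Filter.Eventually.of_forall fun c => ?_)
    simp only [ev, map_add]
    ring
  | mul_X p n hp =>
    intro ψ hψ
    choose Q hQ using fun k : m => hp (fun c => ψ c * ((c : GL m ℂ) : Matrix m m ℂ) k n.2)
      (hψ.mul (cont_entry C k n.2))
    refine ⟨∑ k, X (n.1, k) * Q k, fun g => ?_⟩
    have e1 : ev g (∑ k, X (n.1, k) * Q k) = ∑ k, (g : Matrix m m ℂ) n.1 k * ev g (Q k) := by
      simp [ev]
    rw [e1]
    simp_rw [hQ, ← integral_const_mul]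
    rw [← integral_finsetSum]
    · refine integral_congr_ae (Filter.Eventually.of_forall fun c => ?_)
      have e2 : ev (g * (c : GL m ℂ)) (p * X n) = ev (g * (c : GL m ℂ)) p *
          ∑ k, (g : Matrix m m ℂ) n.1 k * ((c : GL m ℂ) : Matrix m m ℂ) k n.2 := by
        simp only [ev, map_mul, eval_X]
        rw [Units.val_mul, Matrix.mul_apply]
      simp only
      rw [e2, Finset.mul_sum, Finset.mul_sum]
      refine Finset.sum_congr rfl fun k _ => ?_
      ring
    · intro k _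
      exact integ μ (continuous_const.mul ((hψ.mul (cont_entry C k n.2)).mul (cont_ev C g p)))

variable [μ.IsMulLeftInvariant]

/-- the average of a polynomial over `C` and over a translate by an element of the Zariski
closure -/
theorem avg_eq_of_mem {z : GL m ℂ} (hz : z ∈ zar (C : Set (GL m ℂ))) (P : MvPolynomial (m × m) ℂ) :
    ∫ c : C, ev (z * (c : GL m ℂ)) P ∂μ = ∫ c : C, ev (c : GL m ℂ) P ∂μ := by
  obtain ⟨Q, hQ⟩ := exists_avg C μ P (fun _ => 1) continuous_const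
  simp only [one_mul] at hQ
  have h1 : ev z (Q - MvPolynomial.C (∫ c : C, ev (c : GL m ℂ) P ∂μ)) = 0 := by
    refine hz _ fun s hs => ?_
    change ev s _ = 0
    have e1 : ev s (Q - MvPolynomial.C (∫ c : C, ev (c : GL m ℂ) P ∂μ)) =
        ev s Q - ∫ c : C, ev (c : GL m ℂ) P ∂μ := by simp [ev]
    rw [e1, hQ, sub_eq_zero]
    exact integral_mul_left_eq_self (μ := μ) (fun c : C => ev (c : GL m ℂ) P) ⟨s, hs⟩
  have e1 : ev z (Q - MvPolynomial.C (∫ c : C, ev (c : GL m ℂ) P ∂μ)) =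
      ev z Q - ∫ c : C, ev (c : GL m ℂ) P ∂μ := by simp [ev]
  rw [e1, hQ, sub_eq_zero] at h1
  exact h1

section herm

include μ in
/-- an invariant hermitian form -/
theorem exists_herm : ∃ H : GL m ℂ, ∀ c ∈ C,
    (c : Matrix m m ℂ)ᴴ = ((H⁻¹ * c⁻¹ * H : GL m ℂ) : Matrix m m ℂ) := by
  haveI := isHaar μ
  let F : C → Matrix m m ℂ := fun c =>
    ((c : GL m ℂ) : Matrix m m ℂ) * ((c : GL m ℂ) : Matrix m m ℂ)ᴴ
  have hF : Continuous F := by
    have h1 : Continuous fun c : C => ((c : GL m ℂ) : Matrix m m ℂ) :=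
      Units.continuous_val.comp continuous_subtype_val
    exact h1.matrix_mul h1.matrix_conjTranspose
  have hFe : ∀ i j, Continuous fun c => F c i j := fun i j => Continuous.matrix_elem hF i j
  let H : Matrix m m ℂ := Matrix.of fun i j => ∫ c, F c i j ∂μ
  have hℓ : ∀ ℓ : Matrix m m ℂ →ₗ[ℂ] ℂ, ℓ H = ∫ c, ℓ (F c) ∂μ := by
    intro ℓ
    have h1 : ∀ X : Matrix m m ℂ, ℓ X = ∑ i, ∑ j, X i j * ℓ (Matrix.single i j 1) := by
      intro X
      conv_lhs => rw [Matrix.matrix_eq_sum_single X]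
      rw [map_sum]
      refine Finset.sum_congr rfl fun i _ => ?_
      rw [map_sum]
      refine Finset.sum_congr rfl fun j _ => ?_
      have h2 : Matrix.single i j (X i j) = X i j • Matrix.single i j (1 : ℂ) := by
        rw [Matrix.smul_single, smul_eq_mul, mul_one]
      rw [h2, map_smul, smul_eq_mul]
    rw [h1 H]
    simp_rw [h1 (F _)]
    rw [integral_finsetSum _ fun i _ => ?_]
    · refine Finset.sum_congr rfl fun i _ => ?_
      rw [integral_finsetSum _ fun j _ => ?_]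
      · refine Finset.sum_congr rfl fun j _ => ?_
        rw [integral_mul_const]
        rfl
      · exact integ μ ((hFe i j).mul continuous_const)
    · exact integ μ (continuous_finsetSum _ fun j _ => (hFe i j).mul continuous_const)
  have hlin : ∀ (A B : Matrix m m ℂ) (i j : m), (A * H * B) i j = ∫ c, (A * F c * B) i j ∂μ := by
    intro A B i j
    exact hℓ { toFun := fun X => (A * X * B) i j
               map_add' := fun X Y => by rw [Matrix.mul_add, Matrix.add_mul]; rfl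
               map_smul' := fun c X => by rw [Matrix.mul_smul, Matrix.smul_mul]; rfl }
  have hinv : ∀ a : C, ((a : GL m ℂ) : Matrix m m ℂ) * H * ((a : GL m ℂ) : Matrix m m ℂ)ᴴ = H := by
    intro a
    ext i j
    rw [hlin]
    have h1 : ∀ c : C, ((a : GL m ℂ) : Matrix m m ℂ) * F c * ((a : GL m ℂ) : Matrix m m ℂ)ᴴ =
        F (a * c) := by
      intro c
      change _ = (((a * c : C) : GL m ℂ) : Matrix m m ℂ) * (((a * c : C) : GL m ℂ) : Matrix m m ℂ)ᴴ
      rw [Subgroup.coe_mul, Units.val_mul, Matrix.conjTranspose_mul]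
      simp only [F, Matrix.mul_assoc]
    simp_rw [h1]
    exact integral_mul_left_eq_self (μ := μ) (fun c => F c i j) a
  have hpos : ∀ x : m → ℂ, H *ᵥ x = 0 → x = 0 := by
    intro x hx
    let ℓ : Matrix m m ℂ →ₗ[ℂ] ℂ :=
      { toFun := fun X => star x ⬝ᵥ (X *ᵥ x)
        map_add' := fun X Y => by rw [Matrix.add_mulVec, dotProduct_add]
        map_smul' := fun c X => by rw [Matrix.smul_mulVec, dotProduct_smul]; rfl }
    have h1 : ℓ H = ∫ c, ℓ (F c) ∂μ := hℓ ℓ
    have h2 : ∀ c : C, ℓ (F c) =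
        ((∑ k, ‖(((c : GL m ℂ) : Matrix m m ℂ)ᴴ *ᵥ x) k‖ ^ 2 : ℝ) : ℂ) := by
      intro c
      change star x ⬝ᵥ ((((c : GL m ℂ) : Matrix m m ℂ) * ((c : GL m ℂ) : Matrix m m ℂ)ᴴ) *ᵥ x) = _
      rw [← Matrix.mulVec_mulVec, Matrix.dotProduct_mulVec]
      have h3 : star x ᵥ* ((c : GL m ℂ) : Matrix m m ℂ) =
          star (((c : GL m ℂ) : Matrix m m ℂ)ᴴ *ᵥ x) := by
        rw [Matrix.star_mulVec, Matrix.conjTranspose_conjTranspose]
      rw [h3, dotProduct]
      push_cast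
      refine Finset.sum_congr rfl fun k _ => ?_
      rw [Pi.star_apply, RCLike.star_def, ← Complex.normSq_eq_conj_mul_self, Complex.normSq_eq_norm_sq]
      push_cast
      rfl
    have h3 : ℓ H = 0 := by
      change star x ⬝ᵥ (H *ᵥ x) = 0
      rw [hx, dotProduct_zero]
    rw [h3] at h1
    simp_rw [h2] at h1
    have h1' := h1.trans (integral_ofReal (𝕜 := ℂ) (μ := μ)
      (f := fun c : C => ∑ k, ‖(((c : GL m ℂ) : Matrix m m ℂ)ᴴ *ᵥ x) k‖ ^ 2))
    have h4 : ∫ c : C, (∑ k, ‖(((c : GL m ℂ) : Matrix m m ℂ)ᴴ *ᵥ x) k‖ ^ 2 : ℝ) ∂μ = 0 := by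
      exact Complex.ofReal_eq_zero.1 h1'.symm
    have hc : Continuous fun c : C =>
        (∑ k, ‖(((c : GL m ℂ) : Matrix m m ℂ)ᴴ *ᵥ x) k‖ ^ 2 : ℝ) := by
      have h1 : Continuous fun c : C => ((c : GL m ℂ) : Matrix m m ℂ) :=
        Units.continuous_val.comp continuous_subtype_val
      refine continuous_finsetSum _ fun k _ => ?_
      refine Continuous.pow (Continuous.norm ?_) 2
      exact (continuous_apply k).comp (h1.matrix_conjTranspose.matrix_mulVec continuous_const)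
    rw [integral_eq_zero_iff_of_nonneg (fun c => Finset.sum_nonneg fun k _ => sq_nonneg _)
      (hc.integrable_of_hasCompactSupport (HasCompactSupport.of_compactSpace _))] at h4
    have h5 := (hc.ae_eq_iff_eq μ (continuous_const (y := (0 : ℝ)))).1 h4
    have h6 := congrFun h5 1
    simp only [Subgroup.coe_one, Units.val_one, Matrix.conjTranspose_one,
      Matrix.one_mulVec] at h6
    rw [Finset.sum_eq_zero_iff_of_nonneg fun k _ => sq_nonneg _] at h6
    funext k
    have := h6 k (Finset.mem_univ k)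
    simpa using this
  have hunit : IsUnit H := by
    rw [← Matrix.mulVec_injective_iff_isUnit]
    intro x y hxy
    have h1 : H *ᵥ (x - y) = 0 := by
      rw [Matrix.mulVec_sub]
      exact sub_eq_zero.2 hxy
    exact sub_eq_zero.1 (hpos _ h1)
  obtain ⟨U, hU⟩ := hunit
  refine ⟨U, fun c hc => ?_⟩
  have h1 := hinv ⟨c, hc⟩
  rw [← hU] at h1
  rw [Units.val_mul, Units.val_mul]
  have h2 : ((U⁻¹ : GL m ℂ) : Matrix m m ℂ) * ((c⁻¹ : GL m ℂ) : Matrix m m ℂ) *
      (((c : GL m ℂ) : Matrix m m ℂ) * (U : Matrix m m ℂ) * ((c : GL m ℂ) : Matrix m m ℂ)ᴴ) =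
      ((c : GL m ℂ) : Matrix m m ℂ)ᴴ := by
    have e1 : ((c⁻¹ : GL m ℂ) : Matrix m m ℂ) * ((c : GL m ℂ) : Matrix m m ℂ) = 1 := by
      rw [← Units.val_mul, inv_mul_cancel, Units.val_one]
    have e2 : ((U⁻¹ : GL m ℂ) : Matrix m m ℂ) * (U : Matrix m m ℂ) = 1 := by
      rw [← Units.val_mul, inv_mul_cancel, Units.val_one]
    calc _ = ((U⁻¹ : GL m ℂ) : Matrix m m ℂ) * (((c⁻¹ : GL m ℂ) : Matrix m m ℂ) *
          ((c : GL m ℂ) : Matrix m m ℂ)) * (U : Matrix m m ℂ) * ((c : GL m ℂ) : Matrix m m ℂ)ᴴ := by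
          simp only [Matrix.mul_assoc]
      _ = _ := by rw [e1, Matrix.mul_one, e2, Matrix.one_mul]
  rw [← h2, h1]

end herm

end int

section sp

variable {g : ℕ}

theorem neg_eq : (-1 : GL (Fin g ⊕ Fin g) ℂ) = scal (-1) := by
  apply Units.ext
  rw [coe_scal]
  simp

theorem coe_neg_mul (h : GL (Fin g ⊕ Fin g) ℂ) :
    ((scal (-1) * h : GL (Fin g ⊕ Fin g) ℂ) : Matrix (Fin g ⊕ Fin g) (Fin g ⊕ Fin g) ℂ) = -h := by
  rw [scal_mul]
  simp

/-- the inverse of a symplectic matrix -/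
theorem coe_inv {h : GL (Fin g ⊕ Fin g) ℂ} (hh : h ∈ sp g) :
    ((h⁻¹ : GL (Fin g ⊕ Fin g) ℂ) : Matrix (Fin g ⊕ Fin g) (Fin g ⊕ Fin g) ℂ) =
      -(J (Fin g) ℂ * (h : Matrix (Fin g ⊕ Fin g) (Fin g ⊕ Fin g) ℂ)ᵀ * J (Fin g) ℂ) := by
  have h1 := mem_sp.1 hh
  have h2 : (h : Matrix (Fin g ⊕ Fin g) (Fin g ⊕ Fin g) ℂ) *
      (-(J (Fin g) ℂ * (h : Matrix (Fin g ⊕ Fin g) (Fin g ⊕ Fin g) ℂ)ᵀ * J (Fin g) ℂ)) = 1 := by
    rw [Matrix.mul_neg, ← Matrix.mul_assoc, ← Matrix.mul_assoc, h1, J_squared, neg_neg]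
  have h3 : ((h⁻¹ : GL (Fin g ⊕ Fin g) ℂ) : Matrix (Fin g ⊕ Fin g) (Fin g ⊕ Fin g) ℂ) *
      (h : Matrix (Fin g ⊕ Fin g) (Fin g ⊕ Fin g) ℂ) = 1 := by
    rw [← Units.val_mul, inv_mul_cancel, Units.val_one]
  calc _ = ((h⁻¹ : GL (Fin g ⊕ Fin g) ℂ) : Matrix (Fin g ⊕ Fin g) (Fin g ⊕ Fin g) ℂ) *
        ((h : Matrix (Fin g ⊕ Fin g) (Fin g ⊕ Fin g) ℂ) *
        (-(J (Fin g) ℂ * (h : Matrix (Fin g ⊕ Fin g) (Fin g ⊕ Fin g) ℂ)ᵀ * J (Fin g) ℂ))) := by
        rw [h2, Matrix.mul_one]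
    _ = _ := by rw [← Matrix.mul_assoc, h3, Matrix.one_mul]

/-- A compact subgroup of the symplectic group contains `-1` if its Zariski closure does. -/
theorem neg_mem (C : Subgroup (GL (Fin g ⊕ Fin g) ℂ))
    (hC : IsCompact (C : Set (GL (Fin g ⊕ Fin g) ℂ))) (hsp : C ≤ sp g)
    (hz : scal (-1) ∈ zar (C : Set (GL (Fin g ⊕ Fin g) ℂ))) : scal (-1) ∈ C := by
  classical
  by_contra hcon
  set z : GL (Fin g ⊕ Fin g) ℂ := scal (-1) with hzdef
  have hzz : z * z = 1 := by
    rw [hzdef, ← scal_hom]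
    simp [scal]
  haveI : CompactSpace C := isCompact_iff_compactSpace.mp hC
  letI : MeasurableSpace C := borel _
  haveI : BorelSpace C := ⟨rfl⟩
  let μ : Measure C := Measure.haarMeasure ⊤
  haveI : IsProbabilityMeasure μ := ⟨Measure.haarMeasure_self⟩
  haveI : μ.IsMulLeftInvariant := inferInstanceAs (Measure.haarMeasure _).IsMulLeftInvariant
  obtain ⟨H, hH⟩ := exists_herm C μ
  -- the compact set
  let S : Set (GL (Fin g ⊕ Fin g) ℂ) := (C : Set _) ∪ (fun x => z * x) '' (C : Set _)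
  have hS : IsCompact S := hC.union (hC.image (continuous_const.mul continuous_id))
  haveI : CompactSpace S := isCompact_iff_compactSpace.mp hS
  have hzsp : z ∈ sp g := by
    rw [mem_sp, hzdef, coe_scal]
    simp
  -- conjugates of the entries are linear
  have hconj : ∀ q : (Fin g ⊕ Fin g) × (Fin g ⊕ Fin g),
      ∃ L : MvPolynomial ((Fin g ⊕ Fin g) × (Fin g ⊕ Fin g)) ℂ, ∀ x ∈ S,
      ev x L = star ((x : Matrix (Fin g ⊕ Fin g) (Fin g ⊕ Fin g) ℂ) q.1 q.2) := by
    rintro ⟨i, j⟩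
    let A : Matrix (Fin g ⊕ Fin g) (Fin g ⊕ Fin g) ℂ := (H⁻¹ : GL (Fin g ⊕ Fin g) ℂ) * J (Fin g) ℂ
    let B : Matrix (Fin g ⊕ Fin g) (Fin g ⊕ Fin g) ℂ := J (Fin g) ℂ * (H : GL (Fin g ⊕ Fin g) ℂ)
    refine ⟨-∑ b, (∑ a, MvPolynomial.C (A j a) * X (b, a)) * MvPolynomial.C (B b i), ?_⟩
    have key : ∀ x : GL (Fin g ⊕ Fin g) ℂ,
        ev x (-∑ b, (∑ a, MvPolynomial.C (A j a) * X (b, a)) * MvPolynomial.C (B b i)) =
        -((A * (x : Matrix (Fin g ⊕ Fin g) (Fin g ⊕ Fin g) ℂ)ᵀ * B) j i) := by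
      intro x
      simp [ev, Matrix.mul_apply]
    have key2 : ∀ c ∈ C, ((c : Matrix (Fin g ⊕ Fin g) (Fin g ⊕ Fin g) ℂ)ᴴ) =
        -(A * (c : Matrix (Fin g ⊕ Fin g) (Fin g ⊕ Fin g) ℂ)ᵀ * B) := by
      intro c hc
      rw [hH c hc, Units.val_mul, Units.val_mul, coe_inv (hsp hc)]
      simp only [A, B, Matrix.mul_assoc, Matrix.mul_neg, Matrix.neg_mul]
    rintro x (hx | ⟨c, hc, rfl⟩)
    · rw [key]
      have h1 := congrFun (congrFun (key2 x hx) j) i
      rw [Matrix.conjTranspose_apply, Matrix.neg_apply] at h1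
      exact h1.symm
    · rw [key]
      simp only [hzdef]
      rw [coe_neg_mul]
      have h1 := congrFun (congrFun (key2 c hc) j) i
      rw [Matrix.conjTranspose_apply, Matrix.neg_apply] at h1
      rw [Matrix.transpose_neg, Matrix.mul_neg, Matrix.neg_mul, Matrix.neg_apply, Matrix.neg_apply,
        star_neg, h1]
  -- the algebra of the polynomial functions
  let ent : MvPolynomial ((Fin g ⊕ Fin g) × (Fin g ⊕ Fin g)) ℂ → C(S, ℂ) := fun P =>
    ⟨fun x => ev (x : GL (Fin g ⊕ Fin g) ℂ) P, by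
      unfold ev
      exact (MvPolynomial.continuous_eval P).comp (continuous_pi fun p =>
        Continuous.matrix_elem (Units.continuous_val.comp continuous_subtype_val) p.1 p.2)⟩
  let 𝒜 : StarSubalgebra ℂ C(S, ℂ) :=
    { carrier := Set.range ent
      mul_mem' := by
        rintro _ _ ⟨P, rfl⟩ ⟨Q, rfl⟩
        exact ⟨P * Q, ContinuousMap.ext fun x => by simp [ent, ev]⟩
      one_mem' := ⟨1, ContinuousMap.ext fun x => by simp [ent, ev]⟩
      add_mem' := by
        rintro _ _ ⟨P, rfl⟩ ⟨Q, rfl⟩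
        exact ⟨P + Q, ContinuousMap.ext fun x => by simp [ent, ev]⟩
      zero_mem' := ⟨0, ContinuousMap.ext fun x => by simp [ent, ev]⟩
      algebraMap_mem' := fun a => ⟨MvPolynomial.C a, ContinuousMap.ext fun x => by
        simp [ent, ev]⟩
      star_mem' := by
        rintro _ ⟨P, rfl⟩
        induction P using MvPolynomial.induction_on with
        | C a => exact ⟨MvPolynomial.C (star a), ContinuousMap.ext fun x => by simp [ent, ev]⟩
        | add p q hp hq =>
          obtain ⟨p', hp⟩ := hp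
          obtain ⟨q', hq⟩ := hq
          refine ⟨p' + q', ContinuousMap.ext fun x => ?_⟩
          have h1 := DFunLike.congr_fun hp x
          have h2 := DFunLike.congr_fun hq x
          simp only [ent, ContinuousMap.coe_mk, ContinuousMap.star_apply, ev, map_add,
            star_add] at h1 h2 ⊢
          rw [h1, h2]
        | mul_X p n hp =>
          obtain ⟨p', hp⟩ := hp
          obtain ⟨L, hL⟩ := hconj n
          refine ⟨p' * L, ContinuousMap.ext fun x => ?_⟩
          have h1 := DFunLike.congr_fun hp x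
          have h2 := hL x x.2
          simp only [ent, ContinuousMap.coe_mk, ContinuousMap.star_apply, ev, map_mul, eval_X,
            star_mul'] at h1 h2 ⊢
          rw [h1, h2] }
  have hsep : 𝒜.SeparatesPoints := by
    intro x y hxy
    by_contra hcon2
    push Not at hcon2
    apply hxy
    apply Subtype.ext
    apply Units.ext
    ext i j
    have h1 := hcon2 (ent (X (i, j))) ⟨ent (X (i, j)), ⟨X (i, j), rfl⟩, rfl⟩
    simpa [ent, ev] using h1
  have hdense := ContinuousMap.starSubalgebra_topologicalClosure_eq_top_of_separatesPoints 𝒜 hsep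
  -- the function which separates `C` from `-C`
  have hzC : ∀ c ∈ C, z * c ∉ C := by
    intro c hc h
    apply hcon
    have := C.mul_mem h (C.inv_mem hc)
    rwa [mul_inv_cancel_right] at this
  have hclopen : IsClopen {x : S | (x : GL (Fin g ⊕ Fin g) ℂ) ∈ C} := by
    constructor
    · exact hC.isClosed.preimage continuous_subtype_val
    · rw [← isClosed_compl_iff]
      have h1 : {x : S | (x : GL (Fin g ⊕ Fin g) ℂ) ∈ C}ᶜ =
          Subtype.val ⁻¹' ((fun x => z * x) '' (C : Set (GL (Fin g ⊕ Fin g) ℂ))) := by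
        ext x
        constructor
        · intro h
          rcases x.2 with h2 | h2
          · exact absurd h2 h
          · exact h2
        · rintro ⟨c, hc, hx⟩ h
          apply hzC c hc
          have hx' : z * c = (x : GL (Fin g ⊕ Fin g) ℂ) := hx
          rw [hx']
          exact h
      rw [h1]
      exact (hC.image (continuous_const.mul continuous_id)).isClosed.preimage
        continuous_subtype_val
  let φ : C(S, ℂ) := ⟨fun x => if (x : GL (Fin g ⊕ Fin g) ℂ) ∈ C then 1 else -1, by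
    refine Continuous.if ?_ continuous_const continuous_const
    intro a ha
    have := hclopen.frontier_eq
    rw [this] at ha
    exact absurd ha (Set.notMem_empty a)⟩
  have hφ : φ ∈ 𝒜.topologicalClosure := by rw [hdense]; trivial
  obtain ⟨F, ⟨P, rfl⟩, hP⟩ := Metric.mem_closure_iff.1 hφ (1 / 2) (by norm_num)
  have hPx : ∀ x : S, ‖φ x - ev (x : GL (Fin g ⊕ Fin g) ℂ) P‖ ≤ 1 / 2 := by
    intro x
    have h1 := (ContinuousMap.dist_apply_le_dist (f := φ) (g := ent P) x).trans hP.le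
    rw [dist_eq_norm] at h1
    exact h1
  have h1 : ∀ c : C, ‖(1 : ℂ) - ev (c : GL (Fin g ⊕ Fin g) ℂ) P‖ ≤ 1 / 2 := by
    intro c
    have h := hPx ⟨c, Or.inl c.2⟩
    simp only [φ, ContinuousMap.coe_mk, if_pos c.2] at h
    exact h
  have h2 : ∀ c : C, ‖(-1 : ℂ) - ev (z * (c : GL (Fin g ⊕ Fin g) ℂ)) P‖ ≤ 1 / 2 := by
    intro c
    have h := hPx ⟨z * c, Or.inr ⟨c, c.2, rfl⟩⟩
    simp only [φ, ContinuousMap.coe_mk, if_neg (hzC c c.2)] at h
    exact h
  have hint := avg_eq_of_mem C μ hz P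
  have hc1 : Continuous fun c : C => ev (c : GL (Fin g ⊕ Fin g) ℂ) P := by
    have := cont_ev C 1 P
    simpa using this
  have hb : ∀ (κ : ℂ) (f : C → ℂ), Continuous f → (∀ c, ‖κ - f c‖ ≤ 1 / 2) →
      ‖κ - ∫ c, f c ∂μ‖ ≤ 1 / 2 := by
    intro κ f hf hb
    have h3 : κ - ∫ c, f c ∂μ = ∫ c, (κ - f c) ∂μ := by
      rw [integral_sub (integrable_const κ) (integ μ hf)]
      simp
    rw [h3]
    have h4 := norm_integral_le_of_norm_le_const (μ := μ)
      (Filter.Eventually.of_forall hb : ∀ᵐ c ∂μ, ‖κ - f c‖ ≤ 1 / 2)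
    simpa using h4
  have h5 := hb 1 _ hc1 h1
  have h6 := hb (-1) _ (cont_ev C z P) h2
  rw [hint] at h6
  set I := ∫ c : C, ev (c : GL (Fin g ⊕ Fin g) ℂ) P ∂μ
  have h7 : ‖(1 - I) - (-1 - I)‖ ≤ 1 / 2 + 1 / 2 := (norm_sub_le _ _).trans (add_le_add h5 h6)
  have h8 : (1 - I) - (-1 - I) = 2 := by ring
  rw [h8] at h7
  norm_num at h7

end sp

end Pool.Agent.Run7.h271.TW
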