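import Pool.Agent.K4H53.SI.Fm
import Pool.Agent.Run7.h271.TW.Neg

/-! Quadratic twists of a family: Sato-Tate groups and classes. -/

set_option autoImplicit false
set_option maxHeartbeats 400000
set_option linter.style.haveILetI false

namespace Pool.Agent.Run7.h271.TW

open Pool.Agent.K4H40.ST Pool.Agent.K4H40.ST.Zar Pool.Agent.K4H40.ST.Main
open Pool.Agent.K4H53.SI
open NumberField IsDedekindDomain Filter Topology MeasureTheory
open Pool.Agent.W540.BE (upto mem_upto cheb_mean)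

/-- the twist `χ ⊗ ρ` of `ρ` by the quadratic character `χ` -/
noncomputable def twist {Γ R : Type} [Group Γ] [CommRing R] {g : ℕ} (χ : Γ →* ℤˣ)
    (ρ : Γ →* GL (Fin g ⊕ Fin g) R) : Γ →* GL (Fin g ⊕ Fin g) R where
  toFun σ := if χ σ = 1 then ρ σ else -ρ σ
  map_one' := by simp
  map_mul' σ τ := by
    rcases Int.units_eq_one_or (χ σ) with h | h <;> rcases Int.units_eq_one_or (χ τ) with h' | h'
    · simp [h, h']
    · simp [h, h']
    · simp [h, h']
    · simp [h, h']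

section gp

variable {Γ : Type} [Group Γ] {g : ℕ}

theorem scal_neg_mul (h : GL (Fin g ⊕ Fin g) ℂ) : scal (-1) * h = -h := by
  rw [← neg_eq, neg_one_mul]

theorem twist_extend {R : Type} [CommRing R] (χ : Γ →* ℤˣ) (ρ : Γ →* GL (Fin g ⊕ Fin g) R)
    (ι : R →+* ℂ) (σ : Γ) : extend (twist χ ρ) ι σ =
      if χ σ = 1 then extend ρ ι σ else scal (-1) * extend ρ ι σ := by
  change Matrix.GeneralLinearGroup.map ι (if χ σ = 1 then ρ σ else -ρ σ) =
    if χ σ = 1 then Matrix.GeneralLinearGroup.map ι (ρ σ) else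
      scal (-1) * Matrix.GeneralLinearGroup.map ι (ρ σ)
  split_ifs
  · rfl
  · rw [scal_neg_mul]
    apply Units.ext
    ext i j
    simp

/-- the twist does not change the Zariski closure -/
theorem zarG_twist (r r' : Γ →* GL (Fin g ⊕ Fin g) ℂ) (χ : Γ →* ℤˣ)
    (hr' : ∀ σ, r' σ = if χ σ = 1 then r σ else scal (-1) * r σ) (hχ : χ.ker.index ≠ 0)
    {c₀ : ℂˣ} (hc₀ : ‖(c₀ : ℂ)‖ ≠ 1) (hs : scal c₀ ∈ zarG r.range) :
    zarG r'.range = zarG r.range := by
  have h1 : scal (-1) ∈ zarG (χ.ker.map r) :=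
    all_scal_sub (map_le_range r χ.ker) (relIndex_range r χ.ker hχ) hc₀ hs (-1)
  have h2 : χ.ker.map r' = χ.ker.map r := by
    ext x
    constructor
    · rintro ⟨σ, hσ, rfl⟩
      refine ⟨σ, hσ, ?_⟩
      rw [hr', if_pos (MonoidHom.mem_ker.1 hσ)]
    · rintro ⟨σ, hσ, rfl⟩
      refine ⟨σ, hσ, ?_⟩
      rw [hr', if_pos (MonoidHom.mem_ker.1 hσ)]
  have h3 : scal (-1) ∈ zarG r.range := zarG_mono (map_le_range r χ.ker) h1
  have h4 : scal (-1) ∈ zarG r'.range := zarG_mono (map_le_range r' χ.ker) (h2 ▸ h1)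
  have hzz : (scal (-1) : GL (Fin g ⊕ Fin g) ℂ) * scal (-1) = 1 := by
    rw [← scal_hom]
    simp [scal]
  refine le_antisymm (zarG_min ?_) (zarG_min ?_)
  · rintro _ ⟨σ, rfl⟩
    rw [hr']
    split_ifs
    · exact le_zarG _ ⟨σ, rfl⟩
    · exact (zarG r.range).mul_mem h3 (le_zarG _ ⟨σ, rfl⟩)
  · rintro _ ⟨σ, rfl⟩
    by_cases h : χ σ = 1
    · have h5 : r σ = r' σ := by rw [hr', if_pos h]
      rw [h5]
      exact le_zarG _ ⟨σ, rfl⟩
    · have h5 : r σ = scal (-1) * r' σ := by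
        rw [hr', if_neg h, ← mul_assoc, hzz, one_mul]
      rw [h5]
      exact (zarG r'.range).mul_mem h4 (le_zarG _ ⟨σ, rfl⟩)

theorem G1_twist (r r' : Γ →* GL (Fin g ⊕ Fin g) ℂ) (h : zarG r'.range = zarG r.range) :
    G1 r' = G1 r := by
  ext x
  rw [mem_G1, mem_G1, h]

theorem ST_twist (r r' : Γ →* GL (Fin g ⊕ Fin g) ℂ) (h : zarG r'.range = zarG r.range)
    {C : Subgroup (GL (Fin g ⊕ Fin g) ℂ)} (hC : IsSatoTateGroup r C) : IsSatoTateGroup r' C := by
  have h1 := G1_twist r r' h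
  exact ⟨hC.compact, h1 ▸ hC.sub, h1 ▸ hC.dense⟩

/-- a Sato-Tate group contains `-1` -/
theorem ST_neg (r : Γ →* GL (Fin g ⊕ Fin g) ℂ) {C : Subgroup (GL (Fin g ⊕ Fin g) ℂ)}
    (hC : IsSatoTateGroup r C) {c₀ : ℂˣ} (hc₀ : ‖(c₀ : ℂ)‖ ≠ 1) (hs : scal c₀ ∈ zarG r.range) :
    scal (-1) ∈ C := by
  refine neg_mem C hC.compact (fun c hc => ((mem_G1 r).1 (hC.sub hc)).2) (hC.dense ?_)
  rw [mem_G1]
  refine ⟨all_scal hc₀ hs _, ?_⟩
  rw [mem_sp, coe_scal]
  simp

end gp

section cls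

variable {g : ℕ} {K : Type} [Field K] [NumberField K]

/-- the classes of the twist -/
theorem cls_twist (r r' : Gal(Kbar K/K) →* GL (Fin g ⊕ Fin g) ℂ)
    (hunr : {v : HeightOneSpectrum (𝓞 K) | ∃ σ, IsInert K (Kbar K) v σ ∧ r σ ≠ 1}.Finite)
    (hsim : ∀ γ, IsSim (r γ)) {C : Subgroup (GL (Fin g ⊕ Fin g) ℂ)} (hC : IsSatoTateGroup r C)
    {x : HeightOneSpectrum (𝓞 K) → C} (hx : IsClassSystem K (Kbar K) r C x)
    (σ : HeightOneSpectrum (𝓞 K) → Gal(Kbar K/K)) (hσ : ∀ v, IsFrob K (Kbar K) v (σ v))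
    (χ : Gal(Kbar K/K) →* ℤˣ) (hr' : ∀ σ, r' σ = if χ σ = 1 then r σ else scal (-1) * r σ)
    (hG : G1 r' = G1 r) (z : C) (hz : (z : GL (Fin g ⊕ Fin g) ℂ) = scal (-1)) :
    IsClassSystem K (Kbar K) r' C (fun v => if χ (σ v) = 1 then x v else z * x v) := by
  refine (Cls.all_frob r hunr hsim hC hx Fld.exists_not_mem).subset fun v hv => ?_
  by_contra hcon
  apply hv
  simp only [Set.mem_ofPred_eq, not_not] at hcon
  obtain ⟨h, hh, he⟩ := hcon (σ v) (hσ v)
  refine ⟨σ v, hσ v, h, hG ▸ hh, ?_⟩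
  rw [Cls.cls_iff, hr']
  simp only
  by_cases h1 : χ (σ v) = 1
  · rw [if_pos h1, if_pos h1]
    exact he
  · rw [if_neg h1, if_neg h1, Subgroup.coe_mul, hz, ← mul_assoc, ← scal_comm, mul_assoc, mul_assoc,
      ← mul_assoc h, he, ← mul_assoc, ← mul_assoc, scal_comm (-1) (scal (Cls.sc v))]

/-- the mean value of a quadratic character is zero -/
theorem mean_chi (σ : HeightOneSpectrum (𝓞 K) → Gal(Kbar K/K))
    (hσ : ∀ v, IsFrob K (Kbar K) v (σ v)) (χ : Gal(Kbar K/K) →* ℤˣ)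
    (hχ : IsOpen (χ.ker : Set Gal(Kbar K/K))) (hne : χ ≠ 1) :
    Tendsto (avg K fun v => (((χ (σ v) : ℤˣ) : ℤ) : ℂ)) atTop (𝓝 0) := by
  rw [Fld.avg_iff]
  haveI : Finite (Gal(Kbar K/K) ⧸ χ.ker) := Subgroup.quotient_finite_of_isOpen _ hχ
  let Q := Gal(Kbar K/K) ⧸ χ.ker
  letI : Fintype Q := Fintype.ofFinite _
  let χ' : Q →* ℤˣ := QuotientGroup.lift χ.ker χ fun x hx => hx
  have h1 := cheb_mean (F := K) χ.ker hχ (fun q => (((χ' q : ℤˣ) : ℤ) : ℂ))
    (fun a b => by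
      have : χ' (b * a * b⁻¹) = χ' a := by
        rw [map_mul, map_mul, map_inv, mul_comm (χ' b), mul_inv_cancel_right]
      simp only [this]) σ hσ
  have h2 : ((Nat.card Q : ℂ)⁻¹ * ∑ᶠ q : Q, (((χ' q : ℤˣ) : ℤ) : ℂ)) = 0 := by
    have h3 : ∑ᶠ q : Q, (((χ' q : ℤˣ) : ℤ) : ℂ) = 0 := by
      rw [finsum_eq_sum_of_fintype]
      obtain ⟨τ, hτ⟩ : ∃ τ, χ τ ≠ 1 := by
        by_contra hcon
        push Not at hcon
        exact hne (MonoidHom.ext hcon)
      have hτ' : χ' (QuotientGroup.mk τ) = -1 := by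
        rcases Int.units_eq_one_or (χ τ) with h | h
        · exact absurd h hτ
        · exact h
      have h4 : ∑ q : Q, (((χ' q : ℤˣ) : ℤ) : ℂ) = ∑ q : Q, -(((χ' q : ℤˣ) : ℤ) : ℂ) := by
        refine (Equiv.sum_comp (Equiv.mulLeft (QuotientGroup.mk τ : Q))
          fun q => (((χ' q : ℤˣ) : ℤ) : ℂ)).symm.trans ?_
        refine Finset.sum_congr rfl fun q _ => ?_
        simp only [Equiv.coe_mulLeft, map_mul]
        rw [hτ']
        simp
      rw [Finset.sum_neg_distrib] at h4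
      exact self_eq_neg.1 h4
    rw [h3, mul_zero]
  rw [← h2]
  exact h1

end cls

section bessel

variable {K : Type} [Field K] [NumberField K]

theorem card_ne : ∀ᶠ N : ℕ in atTop, (0 : ℝ) < ((upto K N).card : ℝ) := by
  have hc := Fld.card_div (K := K)
  filter_upwards [hc.eventually_ne one_ne_zero] with N hN
  have : (upto K N).card ≠ 0 := by
    intro h
    rw [h] at hN
    simp at hN
  exact_mod_cast Nat.pos_of_ne_zero this

/-- Bessel's inequality for quadratic characters -/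
theorem bessel_chi (σ : HeightOneSpectrum (𝓞 K) → Gal(Kbar K/K))
    (hσ : ∀ v, IsFrob K (Kbar K) v (σ v)) {I : Type} [Fintype I]
    (χ : I → (Gal(Kbar K/K) →* ℤˣ)) (hχ : ∀ i, IsOpen ((χ i).ker : Set Gal(Kbar K/K)))
    (hinj : Function.Injective χ) (F : HeightOneSpectrum (𝓞 K) → ℂ) (B : ℝ)
    (hB : ∀ v, ‖F v‖ ≤ B) (ε : ℝ) (hε : 0 < ε) :
    ∀ᶠ N in atTop, ∑ i, ‖avg K (fun v => (((χ i (σ v) : ℤˣ) : ℤ) : ℂ) * F v) N‖ ^ 2 ≤
      (avg K (fun v => ((‖F v‖ ^ 2 : ℝ) : ℂ)) N).re + ε := by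
  classical
  have hB0 : 0 ≤ B := (norm_nonneg _).trans (hB (Fld.exists_not_mem ∅ Set.finite_empty).choose)
  set u : I → HeightOneSpectrum (𝓞 K) → ℝ := fun i v => (((χ i (σ v) : ℤˣ) : ℤ) : ℝ) with hu
  set Gm : I → I → ℕ → ℝ := fun i j N => (∑ v ∈ upto K N, u i v * u j v) /
    ((upto K N).card : ℝ) with hGm
  have hsq : ∀ i v, u i v * u i v = 1 := by
    intro i v
    rcases Int.units_eq_one_or (χ i (σ v)) with h | h
    · simp [hu, h]
    · simp [hu, h]
  have hG : ∀ i j, Tendsto (Gm i j) atTop (𝓝 (if i = j then 1 else 0)) := by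
    intro i j
    by_cases hij : i = j
    · subst hij
      rw [if_pos rfl]
      refine tendsto_const_nhds.congr' ?_
      filter_upwards [card_ne (K := K)] with N hN
      rw [hGm]
      simp only [hsq]
      rw [Finset.sum_const, nsmul_eq_mul, mul_one, div_self hN.ne']
    · rw [if_neg hij]
      have h0 : IsOpen ((χ i * χ j).ker : Set Gal(Kbar K/K)) := by
        have h1 : (χ i).ker ⊓ (χ j).ker ≤ (χ i * χ j).ker := by
          rintro τ ⟨h1, h2⟩
          rw [MonoidHom.mem_ker, MonoidHom.mul_apply, MonoidHom.mem_ker.1 h1,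
            MonoidHom.mem_ker.1 h2, one_mul]
        exact Subgroup.isOpen_mono h1 ((hχ i).inter (hχ j))
      have h1 : χ i * χ j ≠ 1 := by
        intro h
        apply hij
        apply hinj
        ext τ
        have h2 := DFunLike.congr_fun h τ
        rw [MonoidHom.mul_apply, MonoidHom.one_apply] at h2
        rcases Int.units_eq_one_or (χ i τ) with h3 | h3 <;>
          rcases Int.units_eq_one_or (χ j τ) with h4 | h4 <;> simp_all
      have h2 := mean_chi σ hσ (χ i * χ j) h0 h1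
      have h3 := (Complex.continuous_re.tendsto _).comp h2
      rw [Complex.zero_re] at h3
      refine h3.congr fun N => ?_
      change (avg K (fun v => ((((χ i * χ j) (σ v) : ℤˣ) : ℤ) : ℂ)) N).re = Gm i j N
      rw [Fld.avg_eq]
      have h4 : (∑ v ∈ upto K N, ((((χ i * χ j) (σ v) : ℤˣ) : ℤ) : ℂ)) =
          ((∑ v ∈ upto K N, u i v * u j v : ℝ) : ℂ) := by
        push_cast
        refine Finset.sum_congr rfl fun v _ => ?_
        simp [hu]
      rw [h4, ← Complex.ofReal_natCast, ← Complex.ofReal_div, Complex.ofReal_re]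
  set η : ℕ → ℝ := fun N => ∑ i, ∑ j, |Gm i j N - if i = j then 1 else 0| with hη
  have hηlim : Tendsto η atTop (𝓝 0) := by
    have h1 : Tendsto (fun N => ∑ i, ∑ j, |Gm i j N - if i = j then 1 else 0|) atTop
        (𝓝 (∑ _i : I, ∑ _j : I, (0 : ℝ))) := by
      refine tendsto_finsetSum _ fun i _ => tendsto_finsetSum _ fun j _ => ?_
      have h2 := (hG i j).sub_const (if i = j then (1 : ℝ) else 0)
      rw [sub_self] at h2
      simpa using h2.abs
    simpa using h1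
  have hη0 : ∀ N, 0 ≤ η N := fun N => Finset.sum_nonneg fun i _ =>
    Finset.sum_nonneg fun j _ => abs_nonneg _
  have hηle : ∀ N i j, |Gm i j N - if i = j then 1 else 0| ≤ η N := by
    intro N i j
    refine le_trans ?_ (Finset.single_le_sum (f := fun i => ∑ j, |Gm i j N -
      if i = j then 1 else 0|) (fun i _ => Finset.sum_nonneg fun j _ => abs_nonneg _)
      (Finset.mem_univ i))
    exact Finset.single_le_sum (f := fun j => |Gm i j N - if i = j then 1 else 0|)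
      (fun j _ => abs_nonneg _) (Finset.mem_univ j)
  set k : ℝ := (Fintype.card I : ℝ) with hk
  -- the bound for small `η`
  have hsmall : ∀ᶠ N in atTop, η N * k ≤ 1 / 2 ∧ B ^ 2 * (2 * (η N * k)) ≤ ε := by
    have h1 : Tendsto (fun N => η N * k) atTop (𝓝 0) := by simpa using hηlim.mul_const k
    have h2 : Tendsto (fun N => B ^ 2 * (2 * (η N * k))) atTop (𝓝 0) := by
      simpa using (h1.const_mul 2).const_mul (B ^ 2)
    filter_upwards [h1.eventually_le_const (show (0 : ℝ) < 1 / 2 by norm_num),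
      h2.eventually_le_const hε] with N h3 h4
    exact ⟨h3, h4⟩
  filter_upwards [hsmall, card_ne (K := K)] with N h1 h2
  obtain ⟨h1, h1'⟩ := h1
  set n : ℝ := ((upto K N).card : ℝ) with hn
  have hre := bessel_real (upto K N) (Finset.univ : Finset I) (fun v => (F v).re) u n h2
    (fun _ => 1) (fun _ => 1) (fun _ _ => zero_le_one) (fun _ _ => by norm_num) (η N) (hη0 N)
    (fun i _ j _ => hηle N i j)
  have him := bessel_real (upto K N) (Finset.univ : Finset I) (fun v => (F v).im) u n h2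
    (fun _ => 1) (fun _ => 1) (fun _ _ => zero_le_one) (fun _ _ => by norm_num) (η N) (hη0 N)
    (fun i _ j _ => hηle N i j)
  have hsum : ∑ _i : I, (1 : ℝ) = k := by simp [hk]
  rw [hsum] at hre him
  have h3 : ∀ i, ‖avg K (fun v => (((χ i (σ v) : ℤˣ) : ℤ) : ℂ) * F v) N‖ ^ 2 =
      ((∑ v ∈ upto K N, (F v).re * u i v) / n) ^ 2 +
      ((∑ v ∈ upto K N, (F v).im * u i v) / n) ^ 2 := by
    intro i
    have h4 : avg K (fun v => (((χ i (σ v) : ℤˣ) : ℤ) : ℂ) * F v) N =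
        (∑ v ∈ upto K N, F v * ((u i v : ℝ) : ℂ)) / ((n : ℝ) : ℂ) := by
      rw [Fld.avg_eq, hn, Complex.ofReal_natCast]
      congr 1
      refine Finset.sum_congr rfl fun v _ => ?_
      rw [mul_comm]
      simp [hu]
    rw [h4, Complex.sq_norm, Complex.normSq_apply, Complex.div_ofReal_re, Complex.div_ofReal_im,
      Complex.re_sum, Complex.im_sum]
    simp only [Complex.re_mul_ofReal, Complex.im_mul_ofReal]
    ring
  set S : ℝ := ∑ i, ‖avg K (fun v => (((χ i (σ v) : ℤˣ) : ℤ) : ℂ) * F v) N‖ ^ 2 with hS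
  have h5 : S = ∑ i : I, (1 : ℝ) * ((∑ v ∈ upto K N, (F v).re * u i v) / n) ^ 2 +
      ∑ i : I, (1 : ℝ) * ((∑ v ∈ upto K N, (F v).im * u i v) / n) ^ 2 := by
    rw [hS, ← Finset.sum_add_distrib]
    exact Finset.sum_congr rfl fun i _ => by rw [h3, one_mul, one_mul]
  have h6 : S * (1 - η N * k) ≤ (∑ v ∈ upto K N, ‖F v‖ ^ 2) / n := by
    rw [h5, add_mul]
    refine (add_le_add hre him).trans (le_of_eq ?_)
    rw [← add_div, ← Finset.sum_add_distrib]
    congr 1
    refine Finset.sum_congr rfl fun v _ => ?_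
    rw [Complex.sq_norm, Complex.normSq_apply]
    ring
  have h7 : (avg K (fun v => ((‖F v‖ ^ 2 : ℝ) : ℂ)) N).re = (∑ v ∈ upto K N, ‖F v‖ ^ 2) / n := by
    rw [Fld.avg_eq, ← Complex.ofReal_sum, ← Complex.ofReal_natCast, ← Complex.ofReal_div,
      Complex.ofReal_re]
  rw [h7]
  set A : ℝ := (∑ v ∈ upto K N, ‖F v‖ ^ 2) / n with hA
  have hAB : A ≤ B ^ 2 := by
    rw [hA, div_le_iff₀ h2, hn]
    refine (Finset.sum_le_sum fun v _ => pow_le_pow_left₀ (norm_nonneg _) (hB v) 2).trans ?_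
    rw [Finset.sum_const, nsmul_eq_mul, mul_comm]
  have hA0 : 0 ≤ A := by positivity
  have hS0 : 0 ≤ S := Finset.sum_nonneg fun i _ => by positivity
  have hηk : 0 ≤ η N * k := mul_nonneg (hη0 N) (by positivity)
  -- `S ≤ 2 A`, so `S ≤ A + 2 A η k`
  have h8 : S ≤ 2 * A := by nlinarith
  nlinarith

end bessel

end Pool.Agent.Run7.h271.TW
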